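import Pool.Agent.Helper15.RK.GoalsF
import Pool.Agent.Helper83.SP.DER

/-! # Packet RK-A LEVK: the Levi form along the kernel -/

open Complex Metric Set Filter Topology MeasureTheory
open scoped ContDiff ComplexConjugate ComplexOrder Manifold Matrix

namespace Pool.Agent.Helper37.RK

open Pool.Agent.Helper95.Lin Pool.Agent.Helper16.Abund Pool.Agent.Helper92.Orb
  Pool.Agent.Helper10.SP Pool.Agent.Helper95.RK Pool.Agent.Helper15.RK

/-- **Packet LEVK.** -/
theorem levk (hWIRT : S_WIRT) (hDERK : S_DERK) : S_LEVK := by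
  intro b k Φ W L w v hK f hf x hx α β
  have hO := hK.isOpen
  obtain ⟨-, h2, -⟩ := hDERK hK x hx
  set F : Cn (b + k) → ℂ := fun y => ((f y : ℝ) : ℂ) with hF
  have hFs : ContDiffOn ℝ ∞ F W := Complex.ofRealCLM.contDiff.comp_contDiffOn hf
  have sv : ∀ j, ContDiffOn ℝ ∞ (fun y => v β y j) W := fun j =>
    contDiffOn_pi.mp (hK.smv β) j
  have sc : ∀ j, ContDiffOn ℝ ∞ (fun y => conj (v β y j)) W := fun j =>
    Complex.conjCLE.contDiff.comp_contDiffOn (sv j)
  have sF : ∀ j, ContDiffOn ℝ ∞ (cdb j F) W := fun j => ((hWIRT W hO F F hFs hFs).1 j).2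
  have hcd : ∀ i, cd i (Dvb (v β) F) x = ∑ j, (conj (v β x j) * cd i (cdb j F) x +
      cdb j F x * conj (cdb i (fun y => v β y j) x)) := by
    intro i
    have h := (Pool.Agent.Helper83.SP.cd_sum_mul hWIRT hO (fun j y => conj (v β y j))
      (fun j => cdb j F) sc sF i hx).1
    change cd i (fun y => ∑ j, conj (v β y j) * cdb j F y) x = _
    rw [h]
    refine Finset.sum_congr rfl fun j _ => ?_
    rw [((hWIRT W hO _ _ (sv j) (sv j)).2.2.2.1 i x hx).1]
  have hz : ∀ j, ∑ i, v α x i * conj (cdb i (fun y => v β y j) x) = 0 := by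
    intro j
    have := congrArg conj (h2 β α j)
    unfold Dvb at this
    rw [map_sum, map_zero] at this
    rw [← this]
    refine Finset.sum_congr rfl fun i _ => ?_
    rw [map_mul, Complex.conj_conj]
  unfold DD Dv hermi
  simp only [hcd]
  have e1 : ∀ i, v α x i * ∑ j, (conj (v β x j) * cd i (cdb j F) x +
      cdb j F x * conj (cdb i (fun y => v β y j) x)) =
      ∑ j, LM f x i j * v α x i * conj (v β x j) +
        ∑ j, cdb j F x * (v α x i * conj (cdb i (fun y => v β y j) x)) := by
    intro i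
    rw [Finset.mul_sum, ← Finset.sum_add_distrib]
    refine Finset.sum_congr rfl fun j _ => ?_
    have : LM f x i j = cd i (cdb j F) x := rfl
    rw [this]
    ring
  rw [Finset.sum_congr rfl fun i _ => e1 i, Finset.sum_add_distrib]
  have e2 : ∑ i, ∑ j, cdb j F x * (v α x i * conj (cdb i (fun y => v β y j) x)) = 0 := by
    rw [Finset.sum_comm]
    refine Finset.sum_eq_zero fun j _ => ?_
    rw [← Finset.mul_sum, hz j, mul_zero]
  rw [e2, add_zero]

end Pool.Agent.Helper37.RK
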