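import Pool.Agent.Helper36.RK.GoalsG

/-! # Packet RK-SHF: change of variables in averages -/

open Metric Set Filter Topology MeasureTheory Matrix
open scoped ContDiff

namespace Pool.Agent.Helper37.RK

open Pool.Agent.Helper36.RK

variable {m : ℕ}

/-- The density after the change of variables. -/
noncomputable def gd (φ : (Fin m → ℝ) → ℝ) (p : (Fin m → Fin m → ℝ) × (Fin m → ℝ))
    (y : Fin m → ℝ) : ℝ :=
  |(Matrix.of p.1).det|⁻¹ * φ ((Matrix.of p.1)⁻¹ *ᵥ (y - p.2))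

theorem continuous_gd {φ : (Fin m → ℝ) → ℝ} (hφ : Continuous φ)
    (p : (Fin m → Fin m → ℝ) × (Fin m → ℝ)) : Continuous (gd φ p) := by
  unfold gd
  have h1 : Continuous fun y : Fin m → ℝ => (Matrix.of p.1)⁻¹ *ᵥ (y - p.2) :=
    Continuous.matrix_mulVec continuous_const (continuous_id.sub continuous_const)
  exact continuous_const.mul (hφ.comp h1)

/-- Change of variables. -/
theorem cov {φ f : (Fin m → ℝ) → ℝ} (hφ : Continuous φ) (hf : Continuous f)
    (Q : Matrix (Fin m) (Fin m) ℝ) (hQ : Q.det ≠ 0) (b : Fin m → ℝ) (s : ℝ) :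
    ∫ y, φ y * f (s • (Q *ᵥ y + b)) =
      ∫ y, (|Q.det|⁻¹ * φ (Q⁻¹ *ᵥ (y - b))) * f (s • y) := by
  have hh : Continuous fun y : Fin m → ℝ => φ (Q⁻¹ *ᵥ y) * f (s • (y + b)) := by
    have h1 : Continuous fun y : Fin m → ℝ => Q⁻¹ *ᵥ y :=
      Continuous.matrix_mulVec continuous_const continuous_id
    exact (hφ.comp h1).mul (hf.comp ((continuous_id.add continuous_const).const_smul s))
  have h1 : ∫ y, φ y * f (s • (Q *ᵥ y + b)) =
      ∫ x, (fun y : Fin m → ℝ => φ (Q⁻¹ *ᵥ y) * f (s • (y + b))) (Matrix.toLin' Q x) := by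
    refine integral_congr_ae (Eventually.of_forall fun x => ?_)
    have : Q⁻¹ *ᵥ (Q *ᵥ x) = x := by
      rw [Matrix.mulVec_mulVec, Matrix.nonsing_inv_mul _ (isUnit_iff_ne_zero.2 hQ),
        Matrix.one_mulVec]
    simp only [Matrix.toLin'_apply, this]
  have hm : Measurable (Matrix.toLin' Q) :=
    (LinearMap.continuous_of_finiteDimensional _).measurable
  rw [h1, ← integral_map hm.aemeasurable hh.aestronglyMeasurable,
    Real.map_matrix_volume_pi_eq_smul_volume_pi hQ, integral_smul_measure,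
    ENNReal.toReal_ofReal (abs_nonneg _), smul_eq_mul, abs_inv, ← integral_const_mul]
  have h2 := integral_add_right_eq_self (μ := (volume : Measure (Fin m → ℝ)))
    (fun y : Fin m → ℝ => (|Q.det|⁻¹ * φ (Q⁻¹ *ᵥ (y - b))) * f (s • y)) b
  rw [← h2]
  refine integral_congr_ae (Eventually.of_forall fun x => ?_)
  simp only [add_sub_cancel_right]
  ring

/-- Common compact support. -/
theorem supp {φ : (Fin m → ℝ) → ℝ} (hc : HasCompactSupport φ)
    (p₀ : (Fin m → Fin m → ℝ) × (Fin m → ℝ)) : ∃ R : ℝ, ∀ p, dist p p₀ ≤ 1 →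
    (Matrix.of p.1).det ≠ 0 → ∀ y : Fin m → ℝ, R < ‖y‖ → gd φ p y = 0 := by
  obtain ⟨R₀, hR₀⟩ := hc.isCompact.isBounded.subset_closedBall (0 : Fin m → ℝ)
  have hB : ∃ B : ℝ, 0 ≤ B ∧ ∀ p, dist p p₀ ≤ 1 → (∀ i j, |p.1 i j| ≤ B) ∧ ‖p.2‖ ≤ B := by
    refine ⟨‖p₀‖ + 1, by positivity, fun p hp => ?_⟩
    have h1 : ‖p‖ ≤ ‖p₀‖ + 1 := by
      have := norm_le_norm_add_norm_sub' p p₀
      rw [← dist_eq_norm] at this
      linarith
    refine ⟨fun i j => ?_, (norm_snd_le p).trans h1⟩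
    have h2 : |p.1 i j| ≤ ‖p.1 i‖ := norm_le_pi_norm (p.1 i) j
    exact h2.trans ((norm_le_pi_norm p.1 i).trans ((norm_fst_le p).trans h1))
  obtain ⟨B, hB0, hB⟩ := hB
  refine ⟨m * (B * max R₀ 0) + B, fun p hp hdet y hy => ?_⟩
  by_contra hne
  obtain ⟨h1, h2⟩ := hB p hp
  set x := (Matrix.of p.1)⁻¹ *ᵥ (y - p.2) with hx
  have hφx : φ x ≠ 0 := by
    intro h0
    apply hne
    unfold gd
    rw [← hx, h0, mul_zero]
  have hxR : ‖x‖ ≤ max R₀ 0 := by
    have := hR₀ (subset_tsupport φ hφx)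
    rw [mem_closedBall, dist_zero_right] at this
    exact this.trans (le_max_left _ _)
  have hyx : y = (Matrix.of p.1) *ᵥ x + p.2 := by
    rw [hx, Matrix.mulVec_mulVec, Matrix.mul_nonsing_inv _ (isUnit_iff_ne_zero.2 hdet),
      Matrix.one_mulVec, sub_add_cancel]
  have h3 : ‖(Matrix.of p.1) *ᵥ x‖ ≤ m * (B * max R₀ 0) := by
    rw [pi_norm_le_iff_of_nonneg (by positivity)]
    intro i
    have : ((Matrix.of p.1) *ᵥ x) i = ∑ j, p.1 i j * x j := rfl
    rw [this]
    calc ‖∑ j, p.1 i j * x j‖ ≤ ∑ j, ‖p.1 i j * x j‖ := norm_sum_le _ _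
      _ ≤ ∑ _j : Fin m, B * max R₀ 0 := by
          refine Finset.sum_le_sum fun j _ => ?_
          rw [norm_mul]
          exact mul_le_mul (h1 i j) ((norm_le_pi_norm x j).trans hxR) (norm_nonneg _) hB0
      _ = m * (B * max R₀ 0) := by
          rw [Finset.sum_const, Finset.card_univ, Fintype.card_fin, nsmul_eq_mul]
  have h4 : ‖y‖ ≤ m * (B * max R₀ 0) + B := by
    rw [hyx]
    exact (norm_add_le _ _).trans (add_le_add h3 h2)
  linarith

theorem tendsto_gd {φ : (Fin m → ℝ) → ℝ} (hφ : Continuous φ) (hc : HasCompactSupport φ)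
    (p₀ : (Fin m → Fin m → ℝ) × (Fin m → ℝ)) (h0 : (Matrix.of p₀.1).det ≠ 0) :
    Tendsto (fun p => ∫ y, |gd φ p y - gd φ p₀ y|) (𝓝 p₀) (𝓝 0) := by
  obtain ⟨R, hR⟩ := supp hc p₀
  obtain ⟨M, hM⟩ := hφ.bounded_above_of_compact_support hc
  have hcd : Continuous fun p : (Fin m → Fin m → ℝ) × (Fin m → ℝ) => (Matrix.of p.1).det :=
    Continuous.matrix_det continuous_fst
  have hev : ∀ᶠ p in 𝓝 p₀, |(Matrix.of p.1).det|⁻¹ < |(Matrix.of p₀.1).det|⁻¹ + 1 := by
    have h1 : ContinuousAt (fun p : (Fin m → Fin m → ℝ) × (Fin m → ℝ) =>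
        |(Matrix.of p.1).det|⁻¹) p₀ :=
      (hcd.abs.continuousAt).inv₀ (abs_pos.2 h0).ne'
    exact h1.eventually_lt continuousAt_const (by linarith)
  have hev0 : ∀ᶠ p in 𝓝 p₀, (Matrix.of p.1).det ≠ 0 := hcd.continuousAt.eventually_ne h0
  have hev1 : ∀ᶠ p in 𝓝 p₀, dist p p₀ ≤ 1 := closedBall_mem_nhds p₀ one_pos
  have hM0 : 0 ≤ M := (norm_nonneg _).trans (hM 0)
  set A := |(Matrix.of p₀.1).det|⁻¹ + 1 with hA
  have hA0 : 0 ≤ A := by positivity
  have key : Tendsto (fun p => ∫ y, |gd φ p y - gd φ p₀ y|) (𝓝 p₀)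
      (𝓝 (∫ _y : Fin m → ℝ, (0 : ℝ))) := by
    refine tendsto_integral_filter_of_dominated_convergence
      (fun y => (closedBall (0 : Fin m → ℝ) R).indicator (fun _ => 2 * (A * M)) y) ?_ ?_ ?_ ?_
    · exact Eventually.of_forall fun p =>
        (((continuous_gd hφ p).sub (continuous_gd hφ p₀)).abs).aestronglyMeasurable
    · filter_upwards [hev, hev0, hev1] with p h1 h2 h3
      refine Eventually.of_forall fun y => ?_
      have hb : ∀ q : (Fin m → Fin m → ℝ) × (Fin m → ℝ), |(Matrix.of q.1).det|⁻¹ ≤ A →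
          |gd φ q y| ≤ A * M := by
        intro q hq
        unfold gd
        rw [abs_mul, abs_inv, abs_abs]
        exact mul_le_mul hq (hM _) (abs_nonneg _) hA0
      by_cases hy : y ∈ closedBall (0 : Fin m → ℝ) R
      · rw [indicator_of_mem hy, Real.norm_eq_abs, abs_abs]
        have e1 := hb p h1.le
        have e2 := hb p₀ (by rw [hA]; linarith)
        calc |gd φ p y - gd φ p₀ y| ≤ |gd φ p y| + |gd φ p₀ y| := abs_sub _ _
          _ ≤ 2 * (A * M) := by linarith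
      · rw [indicator_of_notMem hy]
        rw [mem_closedBall, dist_zero_right, not_le] at hy
        rw [hR p h3 h2 y hy, hR p₀ (by simp) h0 y hy]
        simp
    · exact (integrable_indicator_iff measurableSet_closedBall).2
        (integrableOn_const (measure_closedBall_lt_top.ne))
    · refine Eventually.of_forall fun y => ?_
      have h1 : ContinuousAt (fun p => gd φ p y) p₀ := by
        have hadj : Continuous fun p : (Fin m → Fin m → ℝ) × (Fin m → ℝ) =>
            (Matrix.of p.1).adjugate := Continuous.matrix_adjugate continuous_fst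
        have h2 : ContinuousAt (fun p : (Fin m → Fin m → ℝ) × (Fin m → ℝ) =>
            ((Matrix.of p.1).det)⁻¹ • ((Matrix.of p.1).adjugate *ᵥ (y - p.2))) p₀ :=
          (hcd.continuousAt.inv₀ h0).smul
            (Continuous.matrix_mulVec hadj (continuous_const.sub continuous_snd)).continuousAt
        have h3 : (fun p => gd φ p y) = fun p : (Fin m → Fin m → ℝ) × (Fin m → ℝ) =>
            |(Matrix.of p.1).det|⁻¹ *
              φ (((Matrix.of p.1).det)⁻¹ • ((Matrix.of p.1).adjugate *ᵥ (y - p.2))) := by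
          funext p
          unfold gd
          rw [Matrix.inv_def, Ring.inverse_eq_inv', Matrix.smul_mulVec]
        rw [h3]
        exact ((hcd.abs.continuousAt).inv₀ (abs_pos.2 h0).ne').mul
          (hφ.continuousAt.comp h2)
      have h4 : Tendsto (fun p => |gd φ p y - gd φ p₀ y|) (𝓝 p₀) (𝓝 |gd φ p₀ y - gd φ p₀ y|) :=
        ((h1.tendsto).sub_const _).abs
      simpa using h4
  simpa using key

/-- The statement for real `s`. -/
theorem shf_real {m : ℕ} (φ : (Fin m → ℝ) → ℝ) (Q0 : Matrix (Fin m) (Fin m) ℝ)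
    (v : Fin m → ℝ) (hφ : WF φ) (hQ0 : Q0.det ≠ 0) (K ε : ℝ) (hε : 0 < ε) :
    ∃ δ > 0, ∀ (f : (Fin m → ℝ) → ℝ), Continuous f →
    (∀ x, |f x| ≤ K) → ∀ (Q : Matrix (Fin m) (Fin m) ℝ) (b' : Fin m → ℝ),
    (∀ p q, |Q p q - Q0 p q| ≤ δ) → ‖b' - v‖ ≤ δ → ∀ s : ℝ,
    |(∫ y, φ y * f (s • (Q *ᵥ y + b'))) -
      ∫ y, (|Q0.det|⁻¹ * φ (Q0⁻¹ *ᵥ (y - v))) * f (s • y)| ≤ ε := by
  obtain ⟨hφ1, hφc⟩ := hφ
  have hφ' : Continuous φ := hφ1.continuous
  set p₀ : (Fin m → Fin m → ℝ) × (Fin m → ℝ) := (fun i j => Q0 i j, v) with hp₀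
  have e0 : Matrix.of p₀.1 = Q0 := rfl
  have hK : 0 < |K| + 1 := by positivity
  have hcd : Continuous fun p : (Fin m → Fin m → ℝ) × (Fin m → ℝ) => (Matrix.of p.1).det :=
    Continuous.matrix_det continuous_fst
  have h1 := (tendsto_gd hφ' hφc p₀ (by rw [e0]; exact hQ0)).eventually
    (gt_mem_nhds (show (0 : ℝ) < ε / (|K| + 1) by positivity))
  have h2 : ∀ᶠ p in 𝓝 p₀, (Matrix.of p.1).det ≠ 0 :=
    hcd.continuousAt.eventually_ne (by rw [e0]; exact hQ0)
  obtain ⟨δ, hδ, H⟩ := Metric.eventually_nhds_iff.1 (h1.and h2)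
  obtain ⟨R, hR⟩ := supp hφc p₀
  refine ⟨min (δ / 2) 1, by positivity, fun f hf hfK Q b' hQ hb' s => ?_⟩
  set p : (Fin m → Fin m → ℝ) × (Fin m → ℝ) := (fun i j => Q i j, b') with hp
  have e1 : Matrix.of p.1 = Q := rfl
  have hdist : dist p p₀ ≤ min (δ / 2) 1 := by
    rw [Prod.dist_eq]
    refine max_le ?_ ?_
    · refine (dist_pi_le_iff (by positivity)).2 fun i => (dist_pi_le_iff (by positivity)).2
        fun j => ?_
      exact hQ i j
    · rw [dist_eq_norm]
      exact hb'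
  obtain ⟨hG, hdet⟩ := H (lt_of_le_of_lt (hdist.trans (min_le_left _ _)) (by linarith))
  have hd1 : dist p p₀ ≤ 1 := hdist.trans (min_le_right _ _)
  rw [e1] at hdet
  rw [cov hφ' hf Q hdet b' s]
  have hi : ∀ q : (Fin m → Fin m → ℝ) × (Fin m → ℝ), dist q p₀ ≤ 1 → (Matrix.of q.1).det ≠ 0 →
      Integrable (fun y => gd φ q y * f (s • y)) ∧ Integrable (gd φ q) := by
    intro q hq hq'
    constructor
    · refine Continuous.integrable_of_hasCompactSupport
        ((continuous_gd hφ' q).mul (hf.comp (continuous_const_smul s))) ?_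
      refine HasCompactSupport.intro (isCompact_closedBall (0 : Fin m → ℝ) R) fun y hy => ?_
      rw [mem_closedBall, dist_zero_right, not_le] at hy
      rw [hR q hq hq' y hy, zero_mul]
    · refine Continuous.integrable_of_hasCompactSupport (continuous_gd hφ' q) ?_
      refine HasCompactSupport.intro (isCompact_closedBall (0 : Fin m → ℝ) R) fun y hy => ?_
      rw [mem_closedBall, dist_zero_right, not_le] at hy
      exact hR q hq hq' y hy
  obtain ⟨i1, i1'⟩ := hi p hd1 hdet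
  obtain ⟨i2, i2'⟩ := hi p₀ (by simp) hQ0
  have h3 : (∫ y, (|Q.det|⁻¹ * φ (Q⁻¹ *ᵥ (y - b'))) * f (s • y)) -
      ∫ y, (|Q0.det|⁻¹ * φ (Q0⁻¹ *ᵥ (y - v))) * f (s • y) =
      ∫ y, (gd φ p y - gd φ p₀ y) * f (s • y) := by
    have : ∀ y, (gd φ p y - gd φ p₀ y) * f (s • y) =
        gd φ p y * f (s • y) - gd φ p₀ y * f (s • y) := fun y => by ring
    simp only [this]
    rw [integral_sub i1 i2]
    rfl
  rw [h3, ← Real.norm_eq_abs]
  have h4 : Integrable fun y => |gd φ p y - gd φ p₀ y| := (i1'.sub i2').abs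
  calc ‖∫ y, (gd φ p y - gd φ p₀ y) * f (s • y)‖ ≤
        ∫ y, |gd φ p y - gd φ p₀ y| * (|K| + 1) := by
          refine norm_integral_le_of_norm_le (h4.mul_const _) (Eventually.of_forall fun y => ?_)
          rw [Real.norm_eq_abs, abs_mul]
          refine mul_le_mul_of_nonneg_left ?_ (abs_nonneg _)
          have := hfK (s • y)
          have := le_abs_self K
          linarith
    _ = (∫ y, |gd φ p y - gd φ p₀ y|) * (|K| + 1) := integral_mul_const _ _
    _ ≤ ε / (|K| + 1) * (|K| + 1) := mul_le_mul_of_nonneg_right hG.le hK.le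
    _ = ε := by field_simp

/-- **Packet SHF.** -/
theorem shf : S_SHF := by
  intro m φ Q0 v hφ hQ0 K ε hε
  obtain ⟨δ, hδ, H⟩ := shf_real φ Q0 v hφ hQ0 K ε hε
  refine ⟨δ, hδ, fun f hf hfK Q b' hQ hb' s hs => ?_⟩
  have h := H f hf hfK Q b' hQ hb' s
  first
    | exact h
    | simpa only [Nat.cast_smul_eq_nsmul] using h

end Pool.Agent.Helper37.RK
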