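import Pool.Agent.Helper36.RK.GoalsI
import Pool.Agent.Helper52.SP.BOCF
import Pool.Agent.Helper35.SP.PAX

/-! # Packet RK-BOCFK: there is no commutative family that kills the period map -/

open Complex Metric Set Filter Topology MeasureTheory
open scoped ContDiff ComplexConjugate ComplexOrder Manifold

namespace Pool.Agent.Helper37.RK

open Pool.Agent.Helper95.Lin Pool.Agent.Helper10.SP Pool.Agent.Helper95.RK
  Pool.Agent.Helper36.RK

universe u

/-- The form `bt` vanishes if one of the fields kills the period map. -/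
theorem bt_zero {b k : ℕ} {lam : Fin (2 * k) → Cn b → Cn k}
    {Om : Matrix (Fin (2 * k)) (Fin (2 * k)) ℝ} {z u v : Cn b} (h : sV lam Om z u = 0) :
    bt lam Om z u v = 0 := by
  unfold bt hs
  rw [h]
  simp

/-- The determinant of a holomorphic matrix is holomorphic. -/
theorem det_holo {b k : ℕ} {U : Set (Cn b)} {A : Cn b → Matrix (Fin k) (Fin k) ℂ}
    (hA : ∀ i j, DifferentiableOn ℂ (fun z => A z i j) U) :
    DifferentiableOn ℂ (fun z => (A z).det) U := by
  simp only [Matrix.det_apply]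
  refine DifferentiableOn.fun_sum fun σ _ => ?_
  have h1 : ∀ s : Finset (Fin k), DifferentiableOn ℂ (fun z => ∏ i ∈ s, A z (σ i) i) U := by
    intro s
    classical
    induction s using Finset.induction_on with
    | empty => simp
    | insert a s ha ih =>
      simp only [Finset.prod_insert ha]
      exact (hA (σ a) a).fun_mul ih
  exact (h1 Finset.univ).fun_const_smul _

/-- **Packet BOCFK.** -/
theorem bocfk (hLMF : S_LMF) (hMU : S_MUK) (hDETC : S_DETCK.{u}) (hRLT : S_RLTK)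
    (hGIND : S_GIND0) (hINTB : S_INTBK.{u}) (hTENS : S_TENS) (hBID : S_BIDK) (hBTP : S_BTP)
    (hBNAT : S_BNAT) : S_BOCFK.{u} := by
  intro b k N G _ c R Rel P Φ Hf C H hF lam Om hlam hOm m V hV hk
  obtain ⟨p, rfl⟩ : ∃ p, m = p + 1 := Nat.exists_eq_succ_of_ne_zero hV.pos.ne'
  have hA := hF.fol
  have hR2 : (2 : ℝ) ≤ R := by have := hA.Rge; have := hA.Cge; linarith
  have hsub : Bd c 2 ⊆ Bd c R := iUnion_mono fun i => ball_subset_ball hR2
  have hsub3 : Bd c 2 ⊆ Bd c 3 := iUnion_mono fun i => ball_subset_ball (by norm_num)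
  have hopen : IsOpen (Bd c 2) := isOpen_iUnion fun i => isOpen_ball
  have hΦ : ContDiffOn ℝ ∞ Φ (Bd c 2) := hA.smooth.mono hsub
  have hball : ∀ i, ball (c i) 2 ⊆ Bd c 2 := fun i z hz => mem_iUnion.2 ⟨i, hz⟩
  obtain ⟨μ, hμs, hμp, hμi, hμL⟩ := hMU c R P Φ Hf C hA lam Om hlam hOm
  obtain ⟨u, hus, hul, hud⟩ := hDETC c R Rel P Φ Hf C H hF (p + 1) V hV
  have hVd : ∀ k, DifferentiableOn ℂ (V k) (Bd c 2) := fun k => (hV.holo k).mono hsub3
  have hB : ∀ i, ContDiffOn ℝ ∞ (YB Φ μ u V) (ball (c i) 2) ∧ ∀ z ∈ ball (c i) 2,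
      (μ z : ℂ)⁻¹ * ∑ i, cd i (fun y => (μ y : ℂ) * YB Φ μ u V y i) z =
      (Real.exp (-2 * u z) : ℂ) * (tf (LM Φ z) (dsg (fun y => μ y * Real.exp (-2 * u y)) V z)
        (dsg (fun y => μ y * Real.exp (-2 * u y)) V z) + tf (LM Φ z) (sg V z) (sg V z)) := by
    intro i
    refine hBID (ball (c i) 2) isOpen_ball Φ μ u
      (fun z => Matrix.of fun j l => bt lam (Om i) z (Pi.single j 1) (Pi.single l 1)) V
      (hΦ.mono (hball i)) (hμs.mono (hball i)) (hus.mono (hball i))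
      (fun z hz => hμp z (hball i hz)) (fun k => (hVd k).mono (hball i))
      (fun z hz => hul z (hball i hz)) ?_ (fun z hz j l => hμL i z hz j l)
    intro q z hz l
    have h1 := (hBTP (ball (c i) 2) lam (Om i) (polK hlam hOm i) z hz).1 (V q z) (Pi.single l 1)
    rw [bt_zero (hk q i z hz)] at h1
    rw [h1]
    refine Finset.sum_congr rfl fun j _ => ?_
    rw [Finset.sum_eq_single l]
    · simp
    · intro l' _ hl'
      simp [Pi.single_eq_of_ne hl']
    · intro h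
      exact absurd (Finset.mem_univ l) h
  have hYs : ContDiffOn ℝ ∞ (YB Φ μ u V) (Bd c 2) := by
    intro z hz
    obtain ⟨i, hi⟩ := mem_iUnion.1 hz
    exact (((hB i).1 z hi).contDiffAt (isOpen_ball.mem_nhds hi)).contDiffWithinAt
  have hY : ∀ z ∈ Bd c 2, (μ z : ℂ)⁻¹ * ∑ i, cd i (fun y => (μ y : ℂ) * YB Φ μ u V y i) z =
      (Real.exp (-2 * u z) : ℂ) * (tf (LM Φ z) (dsg (fun y => μ y * Real.exp (-2 * u y)) V z)
        (dsg (fun y => μ y * Real.exp (-2 * u y)) V z) + tf (LM Φ z) (sg V z) (sg V z)) := by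
    intro z hz
    obtain ⟨i, hi⟩ := mem_iUnion.1 hz
    exact (hB i).2 z hi
  have hPD : ∀ z ∈ Bd c 2, (LM Φ z).PosDef := fun z hz =>
    Pool.Agent.Helper52.SP.lm_posDef hLMF (Bd c 2) hopen Φ hΦ z hz
      fun e he => hA.pos z (hsub hz) e he
  -- invariance
  have hYi : ∀ U t, PBK c P U t → ∀ z ∈ U,
      fderiv ℂ t.g z (YB Φ μ u V z) = YB Φ μ u V (t.g z) := by
    intro U t hPB z hz
    obtain ⟨hP, hU, hm⟩ := hPB
    obtain ⟨A, U', hdet, hU'o, hzU', hU'U, hrel⟩ := hV.trans U t hP z hz (hU hz) (hm hz)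
    obtain ⟨-, -, ⟨hg, ha, hβ⟩, hga⟩ := hA.holo U t hP
    have hun : U' ∪ Bd c 2 = Bd c 2 := union_eq_self_of_subset_left (hU'U.trans hU)
    have key := hBNAT U' (Bd c 2) Φ μ u V ⟨t.g, fun z => (t.A z).det, fun _ => 0⟩ A hU'o hopen
    refine key ?_ ?_ ?_ ?_ ?_ ?_ ?_ ?_ ?_ hdet ?_ hrel z hzU'
    · rwa [hun]
    · rwa [hun]
    · rwa [hun]
    · rwa [hun]
    · rwa [hun]
    · exact ⟨hg.mono hU'U, (det_holo ha).mono hU'U, differentiableOn_const _⟩
    · exact fun x hx => hm (hU'U hx)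
    · intro x hx
      obtain ⟨h1, h2⟩ := hA.pot U t hP x (hU'U hx)
      exact ⟨(hga x (hU'U hx)).2, h1, h2⟩
    · intro x hx
      exact hμi U t ⟨hP, hU, hm⟩ x (hU'U hx)
    · intro x hx
      refine (hud U t ⟨hP, hU, hm⟩ x (hU'U hx) A ?_).2
      filter_upwards [hU'o.mem_nhds hx] with x' hx' using hrel x' hx'
  -- the sign
  have hre : ∀ z ∈ Bd c 2, ((μ z : ℂ)⁻¹ * ∑ j, cd j (fun y => (μ y : ℂ) * YB Φ μ u V y j) z).re =
      Real.exp (-2 * u z) * ((tf (LM Φ z) (dsg (fun y => μ y * Real.exp (-2 * u y)) V z)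
        (dsg (fun y => μ y * Real.exp (-2 * u y)) V z)).re +
          (tf (LM Φ z) (sg V z) (sg V z)).re) := by
    intro z hz
    rw [hY z hz, Complex.re_ofReal_mul, Complex.add_re]
  have hz0 := hINTB c R Rel P Φ Hf C H hF μ hμs hμp hμi (YB Φ μ u V) hYs hYi (fun z hz => by
    rw [hre z hz]
    have h1 := (hTENS (LM Φ z) (hPD z hz) (dsg (fun y => μ y * Real.exp (-2 * u y)) V z)).2.1
    have h2 := (hTENS (LM Φ z) (hPD z hz) (sg V z)).2.1
    exact mul_nonneg (Real.exp_pos _).le (add_nonneg h1 h2))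
  have hsg : ∀ z ∈ Bd c 2, sg V z = 0 := by
    intro z hz
    have h0 := hz0 z hz
    rw [hre z hz] at h0
    have h1 := (hTENS (LM Φ z) (hPD z hz) (dsg (fun y => μ y * Real.exp (-2 * u y)) V z)).2.1
    have h2 := (hTENS (LM Φ z) (hPD z hz) (sg V z)).2
    have h3 := (mul_eq_zero.1 h0).resolve_left (Real.exp_pos _).ne'
    exact h2.2 (by linarith [h2.1])
  -- generic independence
  have hreal := hRLT c R P Φ Hf C hA lam Om hlam hOm (p + 1) V hV
  set i₀ : Fin N := ⟨0, hA.posN⟩ with hi₀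
  obtain ⟨z, hz, hli⟩ := hGIND (c i₀) 2 (by norm_num) Φ V (hΦ.mono (hball i₀))
    (fun z hz => hA.pos z (hsub (hball i₀ hz))) (fun k => (hVd k).mono (hball i₀))
    (fun x hx => hV.indep i₀ x (by
      have hd : DifferentiableOn ℂ (fun z => ∑ l, (x l : ℂ) • V l z) (ball (c i₀) 3) :=
        DifferentiableOn.fun_sum fun l _ => ((hV.holo l).mono fun y hy =>
          mem_iUnion.2 ⟨i₀, hy⟩).fun_const_smul _
      have hc : c i₀ ∈ ball (c i₀) 3 := mem_ball_self (by norm_num)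
      have := Pool.Agent.Helper35.SP.idt hd (differentiableOn_const (0 : Cn b)) hc (by
        filter_upwards [isOpen_ball.mem_nhds (mem_ball_self (by norm_num : (0 : ℝ) < 2))]
          with y hy
        exact hx y hy)
      exact fun z hz => this hz))
    (fun q l z hz => hreal q l z (hball i₀ hz))
  obtain ⟨I, hI⟩ := Pool.Agent.Helper52.SP.exists_minor (fun k => V k z) hli
  exact hI (congrFun (hsg z (hball i₀ hz)) I)

end Pool.Agent.Helper37.RK
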