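import Pool.Agent.Helper36.RK.GoalsP
import Pool.Agent.Helper2.SP.HVR

/-! # Packet RK-HVR0: generators preserve invariant densities (without the pseudogroup) -/

open Complex Metric Set Filter Topology MeasureTheory
open scoped ContDiff ComplexConjugate ComplexOrder Manifold

namespace Pool.Agent.Helper37.RK

open Pool.Agent.Helper95.Lin Pool.Agent.Helper10.SP Pool.Agent.Helper36.RK

/-- **Packet HVR0.** -/
theorem hvr0 : S_HVR0 := by
  intro b x₀ r r' hr' hrr μ hμs hμp V hVd g σ hσ hσ0 hlim hg z hz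
  set f : Cn b → ℝ := fun y => Real.log (μ y) with hfdef
  have hzr : z ∈ ball x₀ r := ball_subset_ball hrr.le hz
  have hμd : DifferentiableAt ℝ μ z :=
    ((hμs.differentiableOn (by simp)) z hzr).differentiableAt (isOpen_ball.mem_nhds hzr)
  have hfd : DifferentiableAt ℝ f z := hμd.log (hμp z hzr).ne'
  have hVz : DifferentiableAt ℂ V z := (hVd z hzr).differentiableAt (isOpen_ball.mem_nhds hzr)
  rw [Pool.Agent.Helper2.SP.hV_re hfd hVz]
  -- radii
  obtain ⟨ρ, hρ0, hsub⟩ := Metric.isOpen_iff.1 isOpen_ball z hz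
  -- derivatives
  have hD : Tendsto (fun n => ((σ n : ℂ))⁻¹ • (fderiv ℂ (g n) z -
      ContinuousLinearMap.id ℂ (Cn b))) atTop (𝓝 (fderiv ℂ V z)) := by
    rw [Metric.tendsto_nhds]
    intro ε hε
    filter_upwards [hlim (ε / 2 * (ρ / 2)) (by positivity), hg] with n hn hgn
    have hgd : DifferentiableAt ℂ (g n) z :=
      (hgn.1 z hz).differentiableAt (isOpen_ball.mem_nhds hz)
    have hbb : ball z (2 * (ρ / 2)) ⊆ ball x₀ r' := by
      intro w hw
      apply hsub
      rwa [show 2 * (ρ / 2) = ρ by ring] at hw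
    have h1 := Pool.Agent.Helper8.Abund.norm_fderiv_le_of_bound (half_pos hρ0)
      (f := fun w => g n w - w - (σ n : ℂ) • V w) (w := z) (M := ε / 2 * (ρ / 2) * σ n)
      (((hgn.1.mono hbb).sub differentiableOn_id).sub
        ((hVd.mono (hbb.trans (ball_subset_ball hrr.le))).const_smul (σ n : ℂ)))
      (fun u hu => hn u (hbb hu))
    have h2 : fderiv ℂ (fun w => g n w - w - (σ n : ℂ) • V w) z =
        fderiv ℂ (g n) z - ContinuousLinearMap.id ℂ (Cn b) - (σ n : ℂ) • fderiv ℂ V z :=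
      ((hgd.hasFDerivAt.sub (hasFDerivAt_id z)).sub
        (hVz.hasFDerivAt.const_smul (σ n : ℂ))).fderiv
    rw [h2] at h1
    have hσn : (σ n : ℂ) ≠ 0 := by exact_mod_cast (hσ n).ne'
    have h3 : ((σ n : ℂ))⁻¹ • (fderiv ℂ (g n) z - ContinuousLinearMap.id ℂ (Cn b)) -
        fderiv ℂ V z = ((σ n : ℂ))⁻¹ • (fderiv ℂ (g n) z -
          ContinuousLinearMap.id ℂ (Cn b) - (σ n : ℂ) • fderiv ℂ V z) := by
      rw [smul_sub _ _ ((σ n : ℂ) • fderiv ℂ V z), smul_smul, inv_mul_cancel₀ hσn, one_smul]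
    rw [dist_eq_norm, h3, norm_smul, norm_inv, Complex.norm_real,
      Real.norm_of_nonneg (hσ n).le]
    calc (σ n)⁻¹ * ‖fderiv ℂ (g n) z - ContinuousLinearMap.id ℂ (Cn b) -
          (σ n : ℂ) • fderiv ℂ V z‖ ≤ (σ n)⁻¹ * (ε / 2 * (ρ / 2) * σ n / (ρ / 2)) :=
          mul_le_mul_of_nonneg_left h1 (inv_nonneg.2 (hσ n).le)
      _ = ε / 2 := by
          have := (hσ n).ne'
          field_simp
      _ < ε := by linarith
  have hσC : Tendsto (fun n => (σ n : ℂ)) atTop (𝓝 0) := by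
    have := (Complex.continuous_ofReal.tendsto 0).comp hσ0
    rw [Complex.ofReal_zero] at this
    exact this
  have hD0 : Tendsto (fun n => fderiv ℂ (g n) z - ContinuousLinearMap.id ℂ (Cn b)) atTop
      (𝓝 0) := by
    have h1 := hσC.smul hD
    have e0 : (0 : ℂ) • fderiv ℂ V z = 0 := by
      ext
      simp
    rw [e0] at h1
    refine h1.congr fun n => ?_
    have hσn : (σ n : ℂ) ≠ 0 := by exact_mod_cast (hσ n).ne'
    rw [smul_smul, mul_inv_cancel₀ hσn, one_smul]
  obtain ⟨L, hL, hLtr⟩ := Pool.Agent.Helper2.SP.hasFDeriv_det b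
  have hdet1 : (ContinuousLinearMap.id ℂ (Cn b)).det = 1 := by
    simp [ContinuousLinearMap.det]
  have hlog : HasFDerivAt (fun A : Cn b →L[ℂ] Cn b => Complex.log A.det) L
      (ContinuousLinearMap.id ℂ (Cn b)) := by
    have h1 := hL.clog (by
      rw [hdet1]
      exact Complex.one_mem_slitPlane)
    rw [hdet1, inv_one, one_smul] at h1
    exact h1
  have hS2 := (hasFDerivWithinAt_univ.2 hlog).lim hD0 (Eventually.of_forall fun _ => mem_univ _) hD
  rw [hLtr, hdet1, Complex.log_one] at hS2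
  -- values
  have hx : Tendsto (fun n => (σ n)⁻¹ • (g n z - z)) atTop (𝓝 (V z)) := by
    rw [Metric.tendsto_nhds]
    intro ε hε
    filter_upwards [hlim (ε / 2) (by positivity)] with n hn
    have h1 := hn z hz
    have h3 : (σ n)⁻¹ • (g n z - z) - V z = (σ n)⁻¹ • (g n z - z - (σ n : ℂ) • V z) := by
      have hσn := (hσ n).ne'
      rw [smul_sub _ _ ((σ n : ℂ) • V z)]
      congr 1
      have : (σ n : ℂ) • V z = (σ n) • V z := by
        funext k
        simp
      rw [this, smul_smul, inv_mul_cancel₀ hσn, one_smul]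
    rw [dist_eq_norm, h3, norm_smul, norm_inv, Real.norm_of_nonneg (hσ n).le]
    calc (σ n)⁻¹ * ‖g n z - z - (σ n : ℂ) • V z‖ ≤ (σ n)⁻¹ * (ε / 2 * σ n) :=
          mul_le_mul_of_nonneg_left h1 (inv_nonneg.2 (hσ n).le)
      _ = ε / 2 := by
          have := (hσ n).ne'
          field_simp
      _ < ε := by linarith
  have hx0 : Tendsto (fun n => g n z - z) atTop (𝓝 0) := by
    have h1 := hσ0.smul hx
    rw [zero_smul] at h1
    refine h1.congr fun n => ?_
    rw [smul_smul, mul_inv_cancel₀ (hσ n).ne', one_smul]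
  have hS1 := (hasFDerivWithinAt_univ.2 hfd.hasFDerivAt).lim hx0
    (Eventually.of_forall fun _ => mem_univ _) hx
  have hS2re : Tendsto (fun n => 2 * (((σ n : ℂ))⁻¹ • (Complex.log
      (ContinuousLinearMap.id ℂ (Cn b) + (fderiv ℂ (g n) z -
        ContinuousLinearMap.id ℂ (Cn b))).det - 0)).re) atTop
      (𝓝 (2 * (∑ j, fderiv ℂ V z (Pi.single j 1) j).re)) :=
    ((Complex.continuous_re.tendsto _).comp hS2).const_mul 2
  have hsum := hS1.add hS2re
  have hzero : ∀ᶠ n in atTop, (σ n)⁻¹ • (f (z + (g n z - z)) - f z) +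
      2 * (((σ n : ℂ))⁻¹ • (Complex.log
      (ContinuousLinearMap.id ℂ (Cn b) + (fderiv ℂ (g n) z -
        ContinuousLinearMap.id ℂ (Cn b))).det - 0)).re = 0 := by
    filter_upwards [hg] with n hn
    obtain ⟨h2, h1⟩ := hn.2 z hz
    have hμ1 : 0 < μ z := hμp z hzr
    have hμ2 : 0 < μ (g n z) := hμp _ h2
    have hdne : (fderiv ℂ (g n) z).det ≠ 0 := by
      intro h0
      rw [h0, norm_zero] at h1
      norm_num at h1
      exact hμ1.ne' h1
    have hnpos : 0 < ‖(fderiv ℂ (g n) z).det‖ := norm_pos_iff.2 hdne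
    have h3 : f z = f (g n z) + 2 * Real.log ‖(fderiv ℂ (g n) z).det‖ := by
      simp only [hfdef]
      rw [h1, Real.log_mul hμ2.ne' (by positivity), Real.log_pow]
      norm_num
    rw [add_sub_cancel, add_sub_cancel, sub_zero, smul_eq_mul, smul_eq_mul, h3]
    have h4 : ((σ n : ℂ))⁻¹ = (((σ n)⁻¹ : ℝ) : ℂ) := by push_cast; rfl
    rw [h4, Complex.re_ofReal_mul, Complex.log_re]
    ring
  have h0 : Tendsto (fun n => (σ n)⁻¹ • (f (z + (g n z - z)) - f z) +
      2 * (((σ n : ℂ))⁻¹ • (Complex.log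
      (ContinuousLinearMap.id ℂ (Cn b) + (fderiv ℂ (g n) z -
        ContinuousLinearMap.id ℂ (Cn b))).det - 0)).re) atTop (𝓝 0) :=
    tendsto_const_nhds.congr' (hzero.mono fun n hn => hn.symm)
  exact tendsto_nhds_unique hsum h0

end Pool.Agent.Helper37.RK
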